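import Pool.Agent.H5.EF.Stm

/-! Crew EF, parts LIPG and FAM. -/

open Set Filter Topology
open H5.EF

namespace H79.EF

theorem t_LIPG (hGRO : S_GRO) (hBD : S_BD) (hFD : S_FD) : S_LIPG := by
  intro m p M R hm hp hM hR
  set L : ℝ := p * M ^ (p - 1) with hL
  have hL0 : 0 ≤ L := mul_nonneg (by linarith) (Real.rpow_nonneg hM.le _)
  have hX : 0 < Real.exp (L * R ^ 2) := Real.exp_pos _
  refine ⟨Real.exp (L * R ^ 2) + R * (L * Real.exp (L * R ^ 2)), by positivity, ?_⟩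
  intro γ γ' u v u' v' h0 h1 h0' h1' hN hN' r hr
  have key := hGRO m R L 0 |γ - γ'| (fun r => u r - u' r) (fun r => v r - v' r)
    (fun r => ff p (u r) - ff p (u' r)) hm hR hL0 le_rfl (hN.cy.sub hN'.cy) (hN.cz.sub hN'.cz)
    (by simp [hN.z0, hN'.z0]) (by simp [hN.y0, hN'.y0])
    (fun r hr => (hN.dy r hr).sub (hN'.dy r hr))
    (fun r hr => ((hN.dz r hr).sub (hN'.dz r hr)).congr_deriv (by ring))
    (by
      intro r hr
      have hr' : r ∈ Icc 0 R := Ioo_subset_Icc_self hr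
      have h3 := (hFD p hp).2.2 M (u r) (u' r) ((hBD m p γ R u v hm hp h0 hN r hr').trans h1)
        ((hBD m p γ' R u' v' hm hp h0' hN' r hr').trans h1')
      simpa [hL] using h3) r hr
  obtain ⟨k1, k2⟩ := key
  have hd : 0 ≤ |γ - γ'| := abs_nonneg _
  simp only [zero_mul, add_zero] at k1 k2
  constructor
  · refine k1.trans ?_
    have : 0 ≤ R * (L * Real.exp (L * R ^ 2)) * |γ - γ'| := by positivity
    nlinarith
  · refine k2.trans ?_
    have : 0 ≤ Real.exp (L * R ^ 2) * |γ - γ'| := by positivity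
    nlinarith

theorem t_FAM (hNLE : S_NLE) (hLNE : S_LNE) (hLIPG : S_LIPG) (hDIF : S_DIF) (hNDZ : S_NDZ)
    (hSGN : S_SGN) (hS : ∀ m : ℕ, 1 ≤ m → ∃ s : ℝ → ℝ, SFun m s) : S_FAM := by
  intro m p α β R hm hp hα hαβ hR
  obtain ⟨s, hs⟩ := hS m hm
  have hR1 : (0 : ℝ) < R + 1 := by linarith
  have hex : ∀ γ : ℝ, ∃ u v : ℝ → ℝ, γ ∈ Icc α β → NL m p γ (R + 1) u v := by
    intro γ
    by_cases hγ : γ ∈ Icc α β
    · obtain ⟨u, v, h⟩ := hNLE m p γ (R + 1) hm hp (hα.trans_le hγ.1) hR1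
      exact ⟨u, v, fun _ => h⟩
    · exact ⟨0, 0, fun h => absurd h hγ⟩
  choose U V hUV using hex
  have hβ : 0 < β := hα.trans hαβ
  obtain ⟨C, hC, hlip⟩ := hLIPG m p β (R + 1) hm hp hβ hR1
  have hsub : Icc (0 : ℝ) R ⊆ Icc 0 (R + 1) := Icc_subset_Icc le_rfl (by linarith)
  refine ⟨U, V, ⟨?_, ?_, ?_, ?_, ?_, ?_⟩, hUV⟩
  · apply continuousOn_prod_of_continuousOn_lipschitzOnWith (fun q : ℝ × ℝ => U q.1 q.2) C.toNNReal
    · intro γ hγ
      exact (hUV γ hγ).cy.mono hsub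
    · intro r hr
      apply LipschitzOnWith.of_dist_le_mul
      intro γ hγ γ' hγ'
      rw [Real.coe_toNNReal _ hC.le, Real.dist_eq, Real.dist_eq]
      exact (hlip γ γ' _ _ _ _ (hα.le.trans hγ.1) hγ.2 (hα.le.trans hγ'.1) hγ'.2 (hUV γ hγ)
        (hUV γ' hγ') r (hsub hr)).1
  · apply continuousOn_prod_of_continuousOn_lipschitzOnWith (fun q : ℝ × ℝ => V q.1 q.2) C.toNNReal
    · intro γ hγ
      exact (hUV γ hγ).cz.mono hsub
    · intro r hr
      apply LipschitzOnWith.of_dist_le_mul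
      intro γ hγ γ' hγ'
      rw [Real.coe_toNNReal _ hC.le, Real.dist_eq, Real.dist_eq]
      exact (hlip γ γ' _ _ _ _ (hα.le.trans hγ.1) hγ.2 (hα.le.trans hγ'.1) hγ'.2 (hUV γ hγ)
        (hUV γ' hγ') r (hsub hr)).2
  · intro γ hγ r hr
    exact (hUV γ hγ).dy r ⟨hr.1, by linarith [hr.2]⟩
  · intro γ hγ
    rw [(hUV γ hγ).y0]
    exact (hα.trans_le hγ.1).ne'
  · intro γ hγ r hr h0
    rcases eq_or_lt_of_le hr.1 with h | h
    · rw [← h, (hUV γ hγ).y0] at h0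
      exact absurd h0 (hα.trans_le hγ.1).ne'
    · exact hNDZ m p γ (R + 1) _ _ hm hp (hα.trans_le hγ.1) (hUV γ hγ) r ⟨h, by linarith [hr.2]⟩ h0
  · intro γ hγ h0
    have hγ' : γ ∈ Icc α β := Ico_subset_Icc_self hγ
    have hγ0 : 0 < γ := hα.trans_le hγ.1
    obtain ⟨φ, ψ, hL⟩ := hLNE m p γ (R + 1) _ _ hm hp hR1 (hUV γ hγ')
    have ha : 0 < φ R * V γ R := hSGN m p γ (R + 1) R s _ _ φ ψ hm hp hγ0 hs (hUV γ hγ') hL hR
      (by linarith) h0
    have hφ : 0 < |φ R| := by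
      rw [abs_pos]
      rintro h
      rw [h, zero_mul] at ha
      exact lt_irrefl _ ha
    obtain ⟨δ, hδ, hd⟩ := hDIF m p γ (R + 1) _ _ φ ψ hm hp hγ0 hR1 (hUV γ hγ') hL (|φ R| / 2)
      (by linarith)
    have hmem : Ioo γ (min (γ + δ) β) ∈ 𝓝[>] γ :=
      Ioo_mem_nhdsGT (lt_min (by linarith) hγ.2)
    filter_upwards [hmem] with γ' hg
    have hg1 : γ' < γ + δ := hg.2.trans_le (min_le_left _ _)
    have hg2 : γ' < β := hg.2.trans_le (min_le_right _ _)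
    have h3 := hd γ' (U γ') (V γ') hg.1 hg1 (hUV γ' ⟨hγ.1.trans hg.1.le, hg2.le⟩) R
      ⟨hR.le, by linarith⟩
    rw [h0, sub_zero] at h3
    have h4 : |U γ' R * V γ R - (γ' - γ) * (φ R * V γ R)| ≤ (γ' - γ) * (φ R * V γ R) / 2 := by
      have e1 : U γ' R * V γ R - (γ' - γ) * (φ R * V γ R)
          = (U γ' R - (γ' - γ) * φ R) * V γ R := by ring
      rw [e1, abs_mul]
      have e2 : |φ R| * |V γ R| = φ R * V γ R := by rw [← abs_mul, abs_of_pos ha]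
      calc |U γ' R - (γ' - γ) * φ R| * |V γ R| ≤ (|φ R| / 2 * (γ' - γ)) * |V γ R| :=
            mul_le_mul_of_nonneg_right h3 (abs_nonneg _)
        _ = (γ' - γ) * (|φ R| * |V γ R|) / 2 := by ring
        _ = _ := by rw [e2]
    have h5 : 0 < (γ' - γ) * (φ R * V γ R) := mul_pos (by linarith [hg.1]) ha
    have h6 := (abs_le.1 h4).1
    linarith

end H79.EF

namespace H79.EF

theorem t_LOC (hFAM : S_FAM) (hTOP : S_TOP) (hLIPG : S_LIPG) : S_LOC := by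
  intro m p α β R u v u' v' hm hp hα hαβ hR hN hN'
  obtain ⟨U, V, hF, hUV⟩ := hFAM m p α β R hm hp hα hαβ hR
  have hβ : 0 < β := hα.trans hαβ
  obtain ⟨C, hC, hlip⟩ := hLIPG m p β (R + 1) hm hp hβ (by linarith)
  have e1 : cnt R u = cnt R (U α) := by
    unfold cnt
    congr 1
    ext r
    have h : 0 < r → r ≤ R → u r = U α r := by
      intro h1 h2
      have h3 := (hlip α α u v (U α) (V α) hα.le hαβ.le hα.le hαβ.le hN
        (hUV α ⟨le_rfl, hαβ.le⟩) r ⟨h1.le, by linarith⟩).1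
      rw [sub_self, abs_zero, mul_zero] at h3
      exact sub_eq_zero.1 (abs_eq_zero.1 (le_antisymm h3 (abs_nonneg _)))
    constructor
    · rintro ⟨h1, h2, h3⟩; exact ⟨h1, h2, by rw [← h h1 h2]; exact h3⟩
    · rintro ⟨h1, h2, h3⟩; exact ⟨h1, h2, by rw [h h1 h2]; exact h3⟩
  have e2 : cnt R u' = cnt R (U β) := by
    unfold cnt
    congr 1
    ext r
    have h : 0 < r → r ≤ R → u' r = U β r := by
      intro h1 h2
      have h3 := (hlip β β u' v' (U β) (V β) hβ.le le_rfl hβ.le le_rfl hN'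
        (hUV β ⟨hαβ.le, le_rfl⟩) r ⟨h1.le, by linarith⟩).1
      rw [sub_self, abs_zero, mul_zero] at h3
      exact sub_eq_zero.1 (abs_eq_zero.1 (le_antisymm h3 (abs_nonneg _)))
    constructor
    · rintro ⟨h1, h2, h3⟩; exact ⟨h1, h2, by rw [← h h1 h2]; exact h3⟩
    · rintro ⟨h1, h2, h3⟩; exact ⟨h1, h2, by rw [h h1 h2]; exact h3⟩
  rw [e1, e2]
  exact hTOP α β R U V hR hαβ.le hF

end H79.EF
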